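import Pool.Agent.helper53.BND.SpecL

set_option autoImplicit false

open scoped Topology Matrix
open Filter Finset

namespace Pool.Agent.BND

open Pool.Agent.CZ Pool.Agent.PV

theorem LLP_lift {Z : Type} [TopologicalSpace Z] (x : ℝ → Z) (hc : ContinuousOn x U) (h01 : x 0 = x 1) :
    ∃ y : C(UnitAddCircle, Z), ∀ s ∈ U, y (s : UnitAddCircle) = x s := by
  have h01' : x 0 = x (0 + 1) := by rw [zero_add]; exact h01
  have hc' : ContinuousOn x (Set.Icc 0 (0 + 1)) := by rw [zero_add]; exact hc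
  refine ⟨⟨AddCircle.liftIco (1 : ℝ) 0 x, AddCircle.liftIco_continuous (p := (1 : ℝ)) (a := 0) h01' hc'⟩, ?_⟩
  intro s hs
  show AddCircle.liftIco (1 : ℝ) 0 x (s : AddCircle (1 : ℝ)) = x s
  rcases eq_or_lt_of_le hs.2 with h1 | h1
  · subst h1
    have h2 : ((1 : ℝ) : AddCircle (1 : ℝ)) = ((0 : ℝ) : AddCircle (1 : ℝ)) := by
      rw [AddCircle.coe_period, AddCircle.coe_zero]
    rw [h2, AddCircle.liftIco_zero_coe_apply ⟨le_refl _, zero_lt_one⟩, h01]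
  · exact AddCircle.liftIco_zero_coe_apply ⟨hs.1, h1⟩

theorem LLP_surj (t : UnitAddCircle) : ∃ s ∈ U, (s : UnitAddCircle) = t := by
  have h := AddCircle.coe_image_Icc_eq (p := (1 : ℝ)) 0
  have h1 : t ∈ ((↑) : ℝ → AddCircle (1 : ℝ)) '' Set.Icc 0 (0 + 1) := by
    rw [h]
    exact Set.mem_univ _
  obtain ⟨s, hs, rfl⟩ := h1
  rw [zero_add] at hs
  exact ⟨s, hs, rfl⟩

/-- evaluation at a point -/
noncomputable def LLP_ev (t : UnitAddCircle) : C(UnitAddCircle, ℂ) →+* ℂ where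
  toFun f := f t
  map_one' := rfl
  map_mul' _ _ := rfl
  map_zero' := rfl
  map_add' _ _ := rfl

theorem LLP_inv {X : Type} [TopologicalSpace X] {ι : Type} [Fintype ι] [DecidableEq ι] (F : X → Matrix ι ι ℂ) (hF : Continuous F)
    (hd : ∀ x, (F x).det ≠ 0) : Continuous fun x => (F x)⁻¹ := by
  have h1 : (fun x => (F x)⁻¹) = fun x => ((F x).det)⁻¹ • (F x).adjugate := by
    funext x
    rw [Matrix.inv_def, Ring.inverse_eq_inv']
  rw [h1]
  exact (hF.matrix_det.inv₀ hd).smul hF.matrix_adjugate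

/-- a continuous family of matrices as a matrix of functions -/
noncomputable def LLP_mat {X : Type} [TopologicalSpace X] {ι : Type} (F : C(X, Matrix ι ι ℂ)) : Matrix ι ι C(X, ℂ) :=
  Matrix.of fun i j => ⟨fun t => F t i j, (F.continuous.matrix_elem i j)⟩

theorem LLP (hLW0 : LW0_stmt) (hK1Z : K1Z_stmt) : LLP_stmt := by
  classical
  intro ι _ _ f μ hf hμ hf0 hf1 hμ0 hμ1 hdet
  obtain ⟨F, hF⟩ := LLP_lift f hf (by rw [hf0, hf1])
  obtain ⟨ν, hν⟩ := LLP_lift μ hμ (by rw [hμ0, hμ1])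
  have hFd : ∀ t, (F t).det = Complex.exp (ν t) := by
    intro t
    obtain ⟨s, hs, rfl⟩ := LLP_surj t
    rw [hF s hs, hν s hs, hdet s hs]
  have hFd0 : ∀ t, (F t).det ≠ 0 := fun t => by
    rw [hFd t]
    exact Complex.exp_ne_zero _
  have hFc : Continuous fun t => (F t)⁻¹ := LLP_inv F F.continuous hFd0
  let G : C(UnitAddCircle, Matrix ι ι ℂ) := ⟨fun t => (F t)⁻¹, hFc⟩
  have hev : ∀ (H : C(UnitAddCircle, Matrix ι ι ℂ)) (t : UnitAddCircle), (LLP_mat H).map (LLP_ev t) = H t := by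
    intro H t
    ext i j
    rfl
  have hext : ∀ (κ : Type) (P Q : Matrix κ κ C(UnitAddCircle, ℂ)), (∀ t, P.map (LLP_ev t) = Q.map (LLP_ev t)) → P = Q := by
    intro κ P Q h
    ext i j t
    exact congrFun (congrFun (h t) i) j
  have hFG : LLP_mat F * LLP_mat G = 1 := by
    refine hext _ _ _ fun t => ?_
    rw [Matrix.map_mul, hev, hev, Matrix.map_one _ (map_zero _) (map_one _)]
    exact Matrix.mul_nonsing_inv _ (isUnit_iff_ne_zero.2 (hFd0 t))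
  have hGF : LLP_mat G * LLP_mat F = 1 := by
    refine hext _ _ _ fun t => ?_
    rw [Matrix.map_mul, hev, hev, Matrix.map_one _ (map_zero _) (map_one _)]
    exact Matrix.nonsing_inv_mul _ (isUnit_iff_ne_zero.2 (hFd0 t))
  let g : (Matrix ι ι C(UnitAddCircle, ℂ))ˣ := ⟨LLP_mat F, LLP_mat G, hFG, hGF⟩
  have hgd : ∀ t, (g : Matrix ι ι C(UnitAddCircle, ℂ)).det t = Complex.exp (ν t) := by
    intro t
    rw [← hFd t, ← hev F t]
    exact RingHom.map_det (LLP_ev t) (LLP_mat F)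
  obtain ⟨k, g', hg', γ, hγu, hγ0, hγ1⟩ := hK1Z C(UnitAddCircle, ℂ) ι g (hLW0 ι g ν hgd)
  let Γ₀ : ℝ → ℝ → Matrix (ι ⊕ Fin k) (ι ⊕ Fin k) ℂ := fun τ s =>
    (γ (Set.projIcc 0 1 zero_le_one τ)).map (LLP_ev (s : UnitAddCircle))
  have hΓc : Continuous fun p : ℝ × ℝ => Γ₀ p.1 p.2 := by
    refine continuous_matrix fun i j => ?_
    show Continuous fun p : ℝ × ℝ => (γ (Set.projIcc 0 1 zero_le_one p.1) i j) (p.2 : UnitAddCircle)
    have h1 : Continuous fun p : ℝ × ℝ => (γ (Set.projIcc 0 1 zero_le_one p.1) i j : C(UnitAddCircle, ℂ)) :=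
      (γ.continuous.comp (continuous_projIcc.comp continuous_fst)).matrix_elem i j
    have h2 : Continuous fun p : ℝ × ℝ => (p.2 : UnitAddCircle) := (AddCircle.continuous_mk' (1 : ℝ)).comp continuous_snd
    exact h1.eval h2
  have hΓd : ∀ τ s, (Γ₀ τ s).det ≠ 0 := by
    intro τ s
    have h1 : IsUnit (γ (Set.projIcc 0 1 zero_le_one τ)) := hγu _
    have h2 := h1.map (LLP_ev (s : UnitAddCircle)).mapMatrix
    have h3 : IsUnit (Γ₀ τ s) := h2
    rw [Matrix.isUnit_iff_isUnit_det] at h3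
    exact h3.ne_zero
  have hΓ0 : ∀ s ∈ U, Γ₀ 0 s = Matrix.fromBlocks (f s) 0 0 1 := by
    intro s hs
    have h1 : Set.projIcc (0 : ℝ) 1 zero_le_one 0 = (0 : unitInterval) := Set.projIcc_left _
    show (γ (Set.projIcc 0 1 zero_le_one 0)).map (LLP_ev (s : UnitAddCircle)) = _
    rw [h1, hγ0, hg', Matrix.fromBlocks_map, Matrix.map_one _ (map_zero _) (map_one _),
      Matrix.map_zero _ (map_zero _), Matrix.map_zero _ (map_zero _)]
    have h2 : (g : Matrix ι ι C(UnitAddCircle, ℂ)).map (LLP_ev (s : UnitAddCircle)) = f s := by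
      rw [← hF s hs]
      exact hev F s
    rw [h2]
  have hΓ00 : Γ₀ 0 0 = 1 := by
    rw [hΓ0 0 ⟨le_refl _, zero_le_one⟩, hf0, Matrix.fromBlocks_one]
  have hΓ1 : ∀ s, Γ₀ 1 s = 1 := by
    intro s
    have h1 : Set.projIcc (0 : ℝ) 1 zero_le_one 1 = (1 : unitInterval) := Set.projIcc_right _
    show (γ (Set.projIcc 0 1 zero_le_one 1)).map (LLP_ev (s : UnitAddCircle)) = _
    rw [h1, hγ1, Units.val_one, Matrix.map_one _ (map_zero _) (map_one _)]
  have hΓ01 : ∀ τ, Γ₀ τ 1 = Γ₀ τ 0 := by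
    intro τ
    have h2 : ((1 : ℝ) : UnitAddCircle) = ((0 : ℝ) : UnitAddCircle) := by
      show ((1 : ℝ) : AddCircle (1 : ℝ)) = ((0 : ℝ) : AddCircle (1 : ℝ))
      rw [AddCircle.coe_period, AddCircle.coe_zero]
    show (γ (Set.projIcc 0 1 zero_le_one τ)).map (LLP_ev ((1 : ℝ) : UnitAddCircle)) = (γ (Set.projIcc 0 1 zero_le_one τ)).map (LLP_ev ((0 : ℝ) : UnitAddCircle))
    rw [h2]
  have hinv : ∀ τ, Γ₀ τ 0 * (Γ₀ τ 0)⁻¹ = 1 := fun τ => Matrix.mul_nonsing_inv _ (isUnit_iff_ne_zero.2 (hΓd τ 0))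
  refine ⟨k, fun τ s => Γ₀ τ s * (Γ₀ τ 0)⁻¹, ?_, ?_, ?_, ?_, ?_⟩
  · have h1 : Continuous fun p : ℝ × ℝ => (Γ₀ p.1 0)⁻¹ :=
      LLP_inv (fun p : ℝ × ℝ => Γ₀ p.1 0) (hΓc.comp (continuous_fst.prodMk continuous_const)) fun p => hΓd p.1 0
    exact (hΓc.matrix_mul h1).continuousOn
  · intro τ _ s _
    rw [Matrix.det_mul]
    refine mul_ne_zero (hΓd τ s) ?_
    have h1 := congrArg Matrix.det (hinv τ)
    rw [Matrix.det_mul, Matrix.det_one] at h1
    exact right_ne_zero_of_mul (by rw [h1]; exact one_ne_zero)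
  · intro s hs
    show Γ₀ 0 s * (Γ₀ 0 0)⁻¹ = _
    rw [hΓ00, inv_one, mul_one, hΓ0 s hs]
  · intro s _
    show Γ₀ 1 s * (Γ₀ 1 0)⁻¹ = 1
    rw [hΓ1, hΓ1, inv_one, mul_one]
  · intro τ _
    refine ⟨hinv τ, ?_⟩
    show Γ₀ τ 1 * (Γ₀ τ 0)⁻¹ = 1
    rw [hΓ01]
    exact hinv τ

end Pool.Agent.BND
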