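import Pool.Agent.helper53.BND.SpecT

set_option autoImplicit false

open scoped Topology
open Finset Filter

namespace Pool.Agent.BND

open Pool.Agent.CZ Pool.Agent.PV Pool.Agent.PVH

theorem TLS_mem (hWDC : WDC_stmt) (B : BS) (M : ℕ → ℕ → ℕ → ℕ) (hB : IsBS B M) (k : ℕ) :
    ∀ (d e : ℕ) (s : ℝ) (i : ℕ), e < (B.L (k + d)).N → s ∈ U → i < (B.L (k + d)).h e →
      B.lp k d e s i ∈ FS (B.L k) := by
  intro d
  induction d with
  | zero =>
    intro e s i he hs hi
    exact ⟨e, s, i, he, hs, hi, rfl⟩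
  | succ d ih =>
    intro e s i he hs hi
    have h1 : hw (B.L (k + d)).h (B.w (k + d) e s) = (B.L (k + d + 1)).h e := hB.htw (k + d) e s he hs
    obtain ⟨P, a, Q, j, hw1, hj, -, hZ⟩ := hWDC (B.L (k + d)).h (B.w (k + d) e s) i (by rw [h1]; exact hi)
    have h2 : B.lp k (d + 1) e s i = B.lp k d a.1 a.2 j := hZ Am (B.lp k d)
    have ha := hB.lett (k + d) e s he hs a (by rw [hw1]; simp)
    rw [h2]
    exact ih a.1 a.2 j ha.1 ha.2 hj

theorem TLS (hWDC : WDC_stmt) (hWSM : WSM_stmt) : TLS_stmt := by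
  intro B M hB k d
  refine ⟨TLS_mem hWDC B M hB k d, ?_, ?_⟩
  · intro F e s he hs
    have h1 : hw (B.L (k + d)).h (B.w (k + d) e s) = (B.L (k + d + 1)).h e := hB.htw (k + d) e s he hs
    have h2 := hWSM (B.L (k + d)).h (B.w (k + d) e s) Am (B.lp k d) ℝ F
    rw [h1] at h2
    exact h2
  · intro F C hF e s he hs
    have h1 : |B.ls k d F e s| ≤ ∑ i ∈ range ((B.L (k + d)).h e), |F (B.lp k d e s i)| :=
      Finset.abs_sum_le_sum_abs _ _
    refine h1.trans ?_
    have h2 : ∑ i ∈ range ((B.L (k + d)).h e), |F (B.lp k d e s i)| ≤ ∑ _i ∈ range ((B.L (k + d)).h e), C := by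
      refine Finset.sum_le_sum fun i hi => hF _ ?_
      exact TLS_mem hWDC B M hB k d e s i he hs (Finset.mem_range.1 hi)
    refine h2.trans ?_
    rw [Finset.sum_const, Finset.card_range, nsmul_eq_mul, mul_comm]

end Pool.Agent.BND
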